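import Pool.Agent.H252.UQ.Iface

set_option autoImplicit false

/-!
Subtask UQ-TX (owner helper252, MP_401a3a_an): the approximate intertwiner.
-/

open scoped ComplexConjugate

noncomputable section

namespace Pool.Agent.H665.UQ

open Pool.Agent.H923R2.FP Pool.Agent.H923R2.FZ Pool.Agent.N300.UN Pool.Agent.H252.UQ

section cr

variable {X : Type} [TopologicalSpace X]

theorem cr_add (f g : C(X, ℝ)) : cr (f + g) = cr f + cr g := by
  ext x; simp

theorem cr_mul (f g : C(X, ℝ)) : cr (f * g) = cr f * cr g := by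
  ext x; simp

theorem cr_smul (c : ℝ) (f : C(X, ℝ)) : cr (c • f) = (c : ℂ) • cr f := by
  ext x; simp

theorem cr_sum {ι : Type} (s : Finset ι) (f : ι → C(X, ℝ)) :
    cr (∑ i ∈ s, f i) = ∑ i ∈ s, cr (f i) := by
  ext x; simp

theorem star_cr (f : C(X, ℝ)) : star (cr f) = cr f := by
  ext x; simp

/-- the square root of a real function -/
def csq (f : C(X, ℝ)) : C(X, ℝ) := ⟨fun x => Real.sqrt (f x), by fun_prop⟩

theorem csq_apply (f : C(X, ℝ)) (x : X) : csq f x = Real.sqrt (f x) := rfl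

theorem csq_mul (f : C(X, ℝ)) (h : ∀ x, 0 ≤ f x) : csq f * csq f = f := by
  ext x
  rw [ContinuousMap.mul_apply, csq_apply, Real.mul_self_sqrt (h x)]

end cr

section hom

variable {X : Type} [TopologicalSpace X] [CompactSpace X] {A : Type} [CStarAlgebra A]
  (ψ : C(X, ℂ) →⋆ₐ[ℂ] A)

theorem star_mul_cr (f g : C(X, ℝ)) : star (ψ (cr f)) * ψ (cr g) = ψ (cr (f * g)) := by
  rw [← map_star, star_cr, cr_mul, map_mul]

theorem pc_cr (f : C(X, ℝ)) (h : ∀ x, 0 ≤ f x ∧ f x ≤ 1) : PC (ψ (cr f)) := by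
  refine pc_of _ (ψ (cr (csq f))) (ψ (cr (csq (1 - f)))) ?_ ?_
  · rw [star_mul_cr, csq_mul f fun x => (h x).1]
  · rw [star_mul_cr, csq_mul (1 - f) fun x => by simpa using (h x).2]
    have : cr (1 - f) = 1 - cr f := by ext x; simp
    rw [this, map_sub, map_one]

theorem norm_cr_le (f : C(X, ℝ)) {c : ℝ} (hc : 0 ≤ c) (h : ∀ x, |f x| ≤ c) :
    ‖ψ (cr f)‖ ≤ c := by
  refine (NonUnitalStarAlgHom.norm_apply_le ψ (cr f)).trans ?_
  rw [ContinuousMap.norm_le _ hc]
  intro x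
  rw [cr_apply, Complex.norm_real, Real.norm_eq_abs]
  exact h x

/-- the real functional of a trace -/
def mu (τ : A →ₗ[ℂ] ℂ) : C(X, ℝ) →ₗ[ℝ] ℝ where
  toFun f := (τ (ψ (cr f))).re
  map_add' f g := by rw [cr_add, map_add, map_add, Complex.add_re]
  map_smul' c f := by
    rw [cr_smul, map_smul, map_smul, smul_eq_mul, Complex.re_ofReal_mul]
    rfl

theorem mu_apply (τ : A →ₗ[ℂ] ℂ) (f : C(X, ℝ)) : mu ψ τ f = (τ (ψ (cr f))).re := rfl

theorem mu_nonneg {τ : A →ₗ[ℂ] ℂ} (hτ : FTS τ) (f : C(X, ℝ)) (h : ∀ x, 0 ≤ f x) :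
    0 ≤ mu ψ τ f := by
  have h1 := hτ.nonneg (ψ (cr (csq f)))
  rw [star_mul_cr, csq_mul f h] at h1
  exact h1

theorem mu_faith {τ : A →ₗ[ℂ] ℂ} (hτ : FTS τ) (hi : Function.Injective ψ) (f : C(X, ℝ))
    (h : ∀ x, 0 ≤ f x) (h0 : mu ψ τ f = 0) : f = 0 := by
  have h1 := hτ.faith (ψ (cr (csq f)))
  rw [star_mul_cr, csq_mul f h] at h1
  have h2 := h1 h0
  rw [← map_zero ψ] at h2
  have h3 := hi h2
  ext x
  have h4 := congrArg (fun g : C(X, ℂ) => g x) h3
  simp only [cr_apply, ContinuousMap.zero_apply, Complex.ofReal_eq_zero, csq_apply] at h4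
  rw [Real.sqrt_eq_zero (h x)] at h4
  rw [h4]
  rfl

end hom

/-- sums with orthogonal ranges -/
theorem star_sum_mul {A : Type} [CStarAlgebra A] {N : ℕ} (V : Fin N → A)
    (h : ∀ c c', c ≠ c' → star (V c) * V c' = 0) :
    star (∑ c, V c) * ∑ c, V c = ∑ c, star (V c) * V c := by
  rw [star_sum, Finset.sum_mul]
  refine Finset.sum_congr rfl fun c _ => ?_
  rw [Finset.mul_sum, Finset.sum_eq_single c]
  · intro c' _ hc
    exact h c c' (Ne.symm hc)
  · intro hc
    exact absurd (Finset.mem_univ c) hc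

theorem s_TX (hB : S_BUMP) (hC : S_COLN) : S_TX := by
  intro A _ τ hτ hcmp n hn φ ψ iφ iψ hφψ ω κ ζ0 hω hκ hζ0
  -- a smaller `ζ`
  obtain ⟨ζ, hζd⟩ : ∃ ζ, ζ = min ζ0 1 := ⟨_, rfl⟩
  have hζ : 0 < ζ := by rw [hζd]; exact lt_min hζ0 one_pos
  have hζ1 : ζ ≤ 1 := by rw [hζd]; exact min_le_right _ _
  have hζ2 : ζ ≤ ζ0 := by rw [hζd]; exact min_le_left _ _
  obtain ⟨N, p, h, h1, h2, b1, b2, b3, b4, b5, b6, b7, b8, b9⟩ :=
    hB n hn (mu ψ τ) (mu_nonneg ψ hτ) (mu_faith ψ hτ iψ) ω κ hω hκ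
  -- disjointness of the bumps
  have b10 : ∀ j x, h j x ≠ 0 → h2 j x = 1 := fun j x hx =>
    b5 j x (by rw [b4 j x hx]; exact one_ne_zero)
  have b11 : ∀ i j, i ≠ j → ∀ x, h i x = 0 ∨ h j x = 0 := by
    intro i j hij x
    by_contra hc
    push Not at hc
    rcases b7 i j hij x with hx | hx
    · rw [b10 i x hc.1] at hx
      exact one_ne_zero hx
    · rw [b10 j x hc.2] at hx
      exact one_ne_zero hx
  -- a weighted sum of the `h_j²` is bounded by its coefficients on the supports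
  have key : ∀ (w : Fin N → ℝ) (M : ℝ) (x : Cube n), 0 ≤ M →
      (∀ j, h j x ≠ 0 → 0 ≤ w j ∧ w j ≤ M) →
      0 ≤ ∑ j, h j x * h j x * w j ∧ ∑ j, h j x * h j x * w j ≤ M := by
    intro w M x hM hw
    by_cases hx : ∃ j, h j x ≠ 0
    · obtain ⟨j, hj⟩ := hx
      rw [Finset.sum_eq_single j]
      · have e1 := b1 j x
        have e2 := hw j hj
        have e3 : 0 ≤ h j x * h j x := mul_nonneg e1.1 e1.1
        have e4 : h j x * h j x ≤ 1 := mul_le_one₀ e1.2 e1.1 e1.2
        refine ⟨mul_nonneg e3 e2.1, ?_⟩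
        calc h j x * h j x * w j ≤ 1 * M := mul_le_mul e4 e2.2 e2.1 zero_le_one
          _ = M := one_mul M
      · intro i _ hi
        rcases b11 i j hi x with e | e
        · rw [e]; ring
        · exact absurd e hj
      · intro e
        exact absurd (Finset.mem_univ j) e
    · push Not at hx
      rw [Finset.sum_eq_zero fun j _ => by rw [hx j]; ring]
      exact ⟨le_rfl, hM⟩
  obtain ⟨H, hH⟩ : ∃ H : C(Cube n, ℝ), H = ∑ j, h j * h j := ⟨_, rfl⟩
  have hHx : ∀ x, H x = ∑ j, h j x * h j x := by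
    intro x
    rw [hH]
    simp
  have hH01 : ∀ x, 0 ≤ H x ∧ H x ≤ 1 := by
    intro x
    rw [hHx]
    have := key (fun _ => 1) 1 x zero_le_one fun j _ => ⟨zero_le_one, le_rfl⟩
    simpa using this
  -- the elements `r_j`
  obtain ⟨η, hηd⟩ : ∃ η : ℝ, η = ζ ^ 2 / (16 * (N + 1)) := ⟨_, rfl⟩
  have hN : (0 : ℝ) < N + 1 := by positivity
  have hη : 0 < η := by rw [hηd]; positivity
  have hNη : N * η ≤ ζ ^ 2 / 16 := by
    rw [hηd, mul_div_assoc', div_le_div_iff₀ (by positivity) (by norm_num)]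
    nlinarith [sq_nonneg ζ]
  have hr : ∀ j, ∃ r : A, ‖star (φ (cr (h2 j)) * r) * (φ (cr (h2 j)) * r) -
      ψ (cr (h j * h j))‖ < η := by
    intro j
    obtain ⟨r, hr⟩ := hcmp (ψ (cr (h j))) (φ (cr (h2 j))) (ψ (cr (h1 j)))
      (pc_cr ψ (h1 j) (b2 j)) (by
        rw [← map_mul, ← cr_mul]
        congr 2
        ext x
        rw [ContinuousMap.mul_apply]
        by_cases hx : h j x = 0
        · rw [hx, zero_mul]
        · rw [b4 j x hx, mul_one])
      (norm_cr_le φ (h2 j) zero_le_one fun x => by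
        rw [abs_of_nonneg (b3 j x).1]; exact (b3 j x).2) (by
        have := b6 j
        rw [mu_apply, mu_apply] at this
        rw [star_mul_cr, hφψ]
        exact this) η hη
    refine ⟨r, ?_⟩
    rw [star_mul_cr] at hr
    exact hr
  choose r hr using hr
  obtain ⟨c1, c2⟩ := hC (Cube n) A φ (Fin N) h2 r b7
  obtain ⟨V, hV⟩ : ∃ V : Fin N → A, V = fun c => φ (cr (h2 c)) * r c := ⟨_, rfl⟩
  have hVc : ∀ c, φ (cr (h2 c)) * r c = V c := fun c => by rw [hV]
  simp only [hVc] at c1 c2 hr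
  obtain ⟨T, hT⟩ : ∃ T : A, T = ∑ c, V c := ⟨_, rfl⟩
  have hTT : star T * T = ∑ c, star (V c) * V c := by
    rw [hT]
    exact star_sum_mul V c1
  have hψH : ψ (cr H) = ∑ c, ψ (cr (h c * h c)) := by
    rw [hH, cr_sum, map_sum]
  have n1 : ‖star T * T - ψ (cr H)‖ ≤ ζ ^ 2 / 16 := by
    rw [hTT, hψH, ← Finset.sum_sub_distrib]
    refine (norm_sum_le _ _).trans ?_
    refine (Finset.sum_le_sum fun c _ => (hr c).le).trans ?_
    rw [Finset.sum_const, Finset.card_univ, Fintype.card_fin, nsmul_eq_mul]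
    exact hNη
  have hζsq : ζ ^ 2 ≤ ζ := by nlinarith
  have n2 : ‖T‖ ≤ 2 := by
    have e1 : ‖T‖ * ‖T‖ = ‖star T * T‖ := CStarRing.norm_star_mul_self.symm
    have e2 : ‖ψ (cr H)‖ ≤ 1 := norm_cr_le ψ H zero_le_one fun x => by
      rw [abs_of_nonneg (hH01 x).1]; exact (hH01 x).2
    have e3 : ‖star T * T‖ ≤ ‖star T * T - ψ (cr H)‖ + ‖ψ (cr H)‖ := by
      have := norm_add_le (star T * T - ψ (cr H)) (ψ (cr H))
      rwa [sub_add_cancel] at this
    nlinarith [norm_nonneg T]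
  refine ⟨T, H, hH01, ?_, n2, ?_, ?_⟩
  · intro u hu hu'
    have := b9 u hu fun x hx => by
      have e := hu' x hx
      rw [hHx] at e
      simpa [pow_two] using e
    exact this
  · linarith
  · intro f ρ hρ hf
    have m1 : ‖φ f * T - ∑ c, f (p c) • V c‖ ≤ ρ * ‖T‖ := by
      rw [hT]
      exact c2 f (fun c => f (p c)) ρ hρ fun c x hx => hf x (p c) (b8 c x hx)
    -- the other side
    obtain ⟨g, hg⟩ : ∃ g : Fin N → C(Cube n, ℂ), g = fun c => f - algebraMap ℂ _ (f (p c)) :=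
      ⟨_, rfl⟩
    have hgx : ∀ c x, g c x = f x - f (p c) := by
      intro c x
      rw [hg]
      simp
    have hgn : ∀ c, ‖g c‖ ≤ 2 * ‖f‖ := by
      intro c
      rw [ContinuousMap.norm_le _ (by positivity)]
      intro x
      rw [hgx]
      refine (norm_sub_le _ _).trans ?_
      have := ContinuousMap.norm_coe_le_norm f x
      have := ContinuousMap.norm_coe_le_norm f (p c)
      linarith
    have m2 : T * ψ f - ∑ c, f (p c) • V c = ∑ c, V c * ψ (g c) := by
      rw [hT, Finset.sum_mul, ← Finset.sum_sub_distrib]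
      refine Finset.sum_congr rfl fun c _ => ?_
      rw [hg]
      simp only [map_sub, mul_sub]
      congr 1
      rw [AlgHomClass.commutes, Algebra.algebraMap_eq_smul_one, mul_smul_comm, mul_one]
    have m3 : ‖T * ψ f - ∑ c, f (p c) • V c‖ ≤ ρ + ζ * ‖f‖ := by
      rw [m2]
      obtain ⟨W, hW⟩ : ∃ W : A, W = ∑ c, V c * ψ (g c) := ⟨_, rfl⟩
      rw [← hW]
      have k1 : star W * W = ∑ c, star (V c * ψ (g c)) * (V c * ψ (g c)) := by
        rw [hW]
        refine star_sum_mul _ fun c c' hc => ?_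
        rw [star_mul, mul_assoc, ← mul_assoc (star (V c)), c1 c c' hc, zero_mul, mul_zero]
      obtain ⟨Q, hQ⟩ : ∃ Q : C(Cube n, ℂ), Q = ∑ c, star (g c) * cr (h c * h c) * g c := ⟨_, rfl⟩
      have k2 : ‖star W * W - ψ Q‖ ≤ (ζ * ‖f‖ / 2) ^ 2 := by
        rw [k1, hQ, map_sum, ← Finset.sum_sub_distrib]
        refine (norm_sum_le _ _).trans ?_
        have : ∀ c ∈ Finset.univ, ‖star (V c * ψ (g c)) * (V c * ψ (g c)) -
            ψ (star (g c) * cr (h c * h c) * g c)‖ ≤ η * (2 * ‖f‖) ^ 2 := by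
          intro c _
          have e1 : star (V c * ψ (g c)) * (V c * ψ (g c)) -
              ψ (star (g c) * cr (h c * h c) * g c) =
              star (ψ (g c)) * (star (V c) * V c - ψ (cr (h c * h c))) * ψ (g c) := by
            rw [star_mul, map_mul, map_mul, map_star]
            noncomm_ring
          rw [e1]
          have e2 : ‖ψ (g c)‖ ≤ 2 * ‖f‖ :=
            (NonUnitalStarAlgHom.norm_apply_le ψ (g c)).trans (hgn c)
          have e3 : ‖star (ψ (g c))‖ ≤ 2 * ‖f‖ := by rw [norm_star]; exact e2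
          calc _ ≤ ‖star (ψ (g c)) * (star (V c) * V c - ψ (cr (h c * h c)))‖ * ‖ψ (g c)‖ :=
                norm_mul_le _ _
            _ ≤ (‖star (ψ (g c))‖ * ‖star (V c) * V c - ψ (cr (h c * h c))‖) * ‖ψ (g c)‖ :=
                mul_le_mul_of_nonneg_right (norm_mul_le _ _) (norm_nonneg _)
            _ ≤ ((2 * ‖f‖) * η) * (2 * ‖f‖) := by
                refine mul_le_mul (mul_le_mul e3 (hr c).le (norm_nonneg _) (by positivity)) e2
                  (norm_nonneg _) (by positivity)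
            _ = η * (2 * ‖f‖) ^ 2 := by ring
        refine (Finset.sum_le_sum this).trans ?_
        rw [Finset.sum_const, Finset.card_univ, Fintype.card_fin, nsmul_eq_mul, ← mul_assoc]
        calc (N : ℝ) * η * (2 * ‖f‖) ^ 2 ≤ ζ ^ 2 / 16 * (2 * ‖f‖) ^ 2 :=
              mul_le_mul_of_nonneg_right hNη (by positivity)
          _ = (ζ * ‖f‖ / 2) ^ 2 := by ring
      have k3 : ‖ψ Q‖ ≤ ρ ^ 2 := by
        refine (NonUnitalStarAlgHom.norm_apply_le ψ Q).trans ?_
        rw [ContinuousMap.norm_le _ (by positivity)]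
        intro x
        have e1 : Q x = ((∑ c, h c x * h c x * ‖g c x‖ ^ 2 : ℝ) : ℂ) := by
          rw [hQ, ContinuousMap.coe_sum, Finset.sum_apply, Complex.ofReal_sum]
          refine Finset.sum_congr rfl fun c _ => ?_
          have e2 : star (g c x) * g c x = ((‖g c x‖ ^ 2 : ℝ) : ℂ) := by
            rw [Complex.star_def, mul_comm, Complex.mul_conj, Complex.normSq_eq_norm_sq]
          simp only [ContinuousMap.mul_apply, ContinuousMap.star_apply, cr_apply]
          rw [Complex.ofReal_mul (h c x * h c x), ← e2]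
          ring
        rw [e1, Complex.norm_real, Real.norm_eq_abs]
        have e3 := key (fun c => ‖g c x‖ ^ 2) (ρ ^ 2) x (by positivity) fun c hc => by
          refine ⟨by positivity, ?_⟩
          have e4 := hf x (p c) (b8 c x (by rw [b10 c x hc]; exact one_ne_zero))
          rw [← hgx] at e4
          exact pow_le_pow_left₀ (norm_nonneg _) e4 2
        rw [abs_of_nonneg e3.1]
        exact e3.2
      have k4 : ‖W‖ ^ 2 ≤ (ρ + ζ * ‖f‖) ^ 2 := by
        have e1 : ‖W‖ * ‖W‖ = ‖star W * W‖ := CStarRing.norm_star_mul_self.symm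
        have e3 : ‖star W * W‖ ≤ ‖star W * W - ψ Q‖ + ‖ψ Q‖ := by
          have := norm_add_le (star W * W - ψ Q) (ψ Q)
          rwa [sub_add_cancel] at this
        have e4 : 0 ≤ ρ * (ζ * ‖f‖) := by positivity
        nlinarith [sq_nonneg (ζ * ‖f‖)]
      exact le_of_sq_le_sq k4 (by positivity)
    have m4 : φ f * T - T * ψ f = (φ f * T - ∑ c, f (p c) • V c) -
        (T * ψ f - ∑ c, f (p c) • V c) := by abel
    rw [m4]
    refine (norm_sub_le _ _).trans ?_
    have e1 : ρ * ‖T‖ ≤ ρ * 2 := mul_le_mul_of_nonneg_left n2 hρ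
    have e2 : ζ * ‖f‖ ≤ ζ0 * ‖f‖ := mul_le_mul_of_nonneg_right hζ2 (norm_nonneg _)
    linarith

end Pool.Agent.H665.UQ
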