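import Pool.Agent.H867.FT.Gen5
import Pool.Agent.H738.FT867KRU

/-!
# FTU CRF: the canonical module is nonzero, finitely generated and reflexive

The reflexivity is proved with the height one primes of `S`: the conductor `{s : s z ∈ C}` of an
element `z` of `1 / (1 / C)` is contained in no height one prime of `S`, so (lying over and
incomparability) its contraction to `P` is contained in no height one prime of `P`, and `S_KRU`
for `P` applies to the values of the functional attached to `z`.
-/

set_option autoImplicit false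
set_option linter.all false

namespace Pool.Agent.H665.FT867CRF

open Pool.Agent.H867.FT
open scoped nonZeroDivisors

/-- the localization at a prime of height one -/
theorem isDVR (P : Type) [CommRing P] [IsDomain P] [IsNoetherianRing P] [IsIntegrallyClosed P]
    (𝔭 : Ideal P) [h𝔭 : 𝔭.IsPrime] (hh : 𝔭.height = 1) :
    IsDiscreteValuationRing (Localization.AtPrime 𝔭) := by
  have hdim : ringKrullDim (Localization.AtPrime 𝔭) = 1 := by
    rw [IsLocalization.AtPrime.ringKrullDim_eq_height 𝔭 (Localization.AtPrime 𝔭), hh]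
    rfl
  haveI : IsNoetherianRing (Localization.AtPrime 𝔭) :=
    IsLocalization.isNoetherianRing 𝔭.primeCompl _ inferInstance
  haveI hic : IsIntegrallyClosed (Localization.AtPrime 𝔭) :=
    isIntegrallyClosed_of_isLocalization (R := P) (S := Localization.AtPrime 𝔭) 𝔭.primeCompl
      (Ideal.primeCompl_le_nonZeroDivisors 𝔭)
  haveI : Ring.KrullDimLE 1 (Localization.AtPrime 𝔭) := Ring.krullDimLE_iff.2 (le_of_eq hdim)
  have hnf : ¬ IsField (Localization.AtPrime 𝔭) := by
    intro hf
    have := ringKrullDim_eq_zero_of_isField hf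
    rw [hdim] at this
    exact one_ne_zero this
  have h : (IsIntegrallyClosed (Localization.AtPrime 𝔭) ∧
      ∃! Q : Ideal (Localization.AtPrime 𝔭), Q ≠ ⊥ ∧ Q.IsPrime) ↔
      IsDiscreteValuationRing (Localization.AtPrime 𝔭) :=
    (IsDiscreteValuationRing.TFAE (Localization.AtPrime 𝔭) hnf).out 3 0
  refine h.1 ⟨hic, IsLocalRing.maximalIdeal _, ⟨?_, inferInstance⟩, ?_⟩
  · exact fun h => hnf (IsLocalRing.isField_iff_maximalIdeal_eq.2 h)
  · rintro Q ⟨hQ, hQ'⟩
    exact IsLocalRing.eq_maximalIdeal (hQ'.isMaximal_of_ne_bot hQ)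

section

variable {S K : Type} [CommRing S] [IsDomain S] [IsNoetherianRing S] [IsIntegrallyClosed S]
  [Field K] [Algebra S K] [IsFractionRing S K]

/-- comparability in `S` at a height one prime -/
theorem tot_ring (𝔭 : Ideal S) [h𝔭 : 𝔭.IsPrime] (hh : 𝔭.height = 1) (a b : S) :
    (∃ s : S, s ∉ 𝔭 ∧ ∃ r : S, s * a = r * b) ∨ ∃ s : S, s ∉ 𝔭 ∧ ∃ r : S, s * b = r * a := by
  haveI := isDVR S 𝔭 hh
  have key : ∀ a b : S, algebraMap S (Localization.AtPrime 𝔭) b ∣
      algebraMap S (Localization.AtPrime 𝔭) a → ∃ s : S, s ∉ 𝔭 ∧ ∃ r : S, s * a = r * b := by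
    rintro a b ⟨w, hw⟩
    obtain ⟨⟨r, s⟩, hrs⟩ := IsLocalization.surj 𝔭.primeCompl w
    refine ⟨s, s.2, r, ?_⟩
    apply IsLocalization.injective (Localization.AtPrime 𝔭) (Ideal.primeCompl_le_nonZeroDivisors 𝔭)
    rw [map_mul, map_mul, hw, ← hrs]
    ring
  rcases ValuationRing.dvd_total (algebraMap S (Localization.AtPrime 𝔭) b)
    (algebraMap S (Localization.AtPrime 𝔭) a) with h | h
  · exact Or.inl (key a b h)
  · exact Or.inr (key b a h)

/-- comparability in `K` at a height one prime -/
theorem tot (𝔭 : Ideal S) [h𝔭 : 𝔭.IsPrime] (hh : 𝔭.height = 1) (x y : K) :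
    (∃ s : S, s ∉ 𝔭 ∧ ∃ r : S, algebraMap S K s * x = algebraMap S K r * y) ∨
      ∃ s : S, s ∉ 𝔭 ∧ ∃ r : S, algebraMap S K s * y = algebraMap S K r * x := by
  obtain ⟨⟨a, d⟩, ha⟩ := IsLocalization.surj S⁰ x
  obtain ⟨⟨b, d'⟩, hb⟩ := IsLocalization.surj S⁰ y
  have hd : algebraMap S K d ≠ 0 := IsFractionRing.to_map_ne_zero_of_mem_nonZeroDivisors d.2
  have hd' : algebraMap S K d' ≠ 0 := IsFractionRing.to_map_ne_zero_of_mem_nonZeroDivisors d'.2
  have key : ∀ s r : S, s * (a * d') = r * (b * d) →
      algebraMap S K s * x = algebraMap S K r * y := by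
    intro s r h
    have h1 := congrArg (algebraMap S K) h
    simp only [map_mul] at h1
    have ha' : x * algebraMap S K d = algebraMap S K a := ha
    have hb' : y * algebraMap S K d' = algebraMap S K b := hb
    rw [← ha', ← hb'] at h1
    have h2 : (algebraMap S K d * algebraMap S K d') * (algebraMap S K s * x) =
        (algebraMap S K d * algebraMap S K d') * (algebraMap S K r * y) := by
      linear_combination h1
    exact mul_left_cancel₀ (mul_ne_zero hd hd') h2
  have key' : ∀ s r : S, s * (b * d) = r * (a * d') →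
      algebraMap S K s * y = algebraMap S K r * x := by
    intro s r h
    have h1 := congrArg (algebraMap S K) h
    simp only [map_mul] at h1
    have ha' : x * algebraMap S K d = algebraMap S K a := ha
    have hb' : y * algebraMap S K d' = algebraMap S K b := hb
    rw [← ha', ← hb'] at h1
    have h2 : (algebraMap S K d * algebraMap S K d') * (algebraMap S K s * y) =
        (algebraMap S K d * algebraMap S K d') * (algebraMap S K r * x) := by
      linear_combination h1
    exact mul_left_cancel₀ (mul_ne_zero hd hd') h2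
  rcases tot_ring 𝔭 hh (a * d') (b * d) with ⟨s, hs, r, hr⟩ | ⟨s, hs, r, hr⟩
  · exact Or.inl ⟨s, hs, r, key s r hr⟩
  · exact Or.inr ⟨s, hs, r, key' s r hr⟩

/-- finite sets -/
theorem fin_max (𝔭 : Ideal S) [h𝔭 : 𝔭.IsPrime] (hh : 𝔭.height = 1) (F : Finset K) :
    F.Nonempty → ∃ y ∈ F, ∃ s : S, s ∉ 𝔭 ∧ ∀ c ∈ F, ∃ r : S,
      algebraMap S K s * c = algebraMap S K r * y := by
  classical
  induction F using Finset.induction_on with
  | empty => exact fun h => absurd h Finset.not_nonempty_empty
  | insert x F hx ih =>
    intro _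
    rcases F.eq_empty_or_nonempty with h0 | h0
    · subst h0
      refine ⟨x, Finset.mem_insert_self _ _, 1, fun h => h𝔭.ne_top ((Ideal.eq_top_iff_one _).2 h),
        ?_⟩
      intro c hc
      rw [Finset.mem_insert] at hc
      rcases hc with rfl | hc
      · exact ⟨1, rfl⟩
      · exact absurd hc (Finset.notMem_empty _)
    · obtain ⟨y, hy, s, hs, hF⟩ := ih h0
      rcases tot (K := K) 𝔭 hh x y with ⟨t, ht, r, hr⟩ | ⟨t, ht, r, hr⟩
      · refine ⟨y, Finset.mem_insert_of_mem hy, s * t, fun h => (h𝔭.mem_or_mem h).elim hs ht, ?_⟩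
        intro c hc
        rw [Finset.mem_insert] at hc
        rcases hc with rfl | hc
        · refine ⟨s * r, ?_⟩
          rw [map_mul, map_mul, mul_assoc, hr, mul_assoc]
        · obtain ⟨r', hr'⟩ := hF c hc
          refine ⟨t * r', ?_⟩
          rw [map_mul, map_mul]
          linear_combination (algebraMap S K t) * hr'
      · refine ⟨x, Finset.mem_insert_self _ _, s * t, fun h => (h𝔭.mem_or_mem h).elim hs ht, ?_⟩
        intro c hc
        rw [Finset.mem_insert] at hc
        rcases hc with rfl | hc
        · exact ⟨s * t, rfl⟩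
        · obtain ⟨r', hr'⟩ := hF c hc
          refine ⟨r' * r, ?_⟩
          rw [map_mul, map_mul]
          linear_combination (algebraMap S K t) * hr' + (algebraMap S K r') * hr

/-- A nonzero finitely generated fractional ideal is principal at a height one prime. -/
theorem loc_princ (C : Submodule S K) (hne : C ≠ ⊥) (hfg : C.FG)
    (𝔭 : Ideal S) [h𝔭 : 𝔭.IsPrime] (hh : 𝔭.height = 1) :
    ∃ y ∈ C, y ≠ 0 ∧ ∃ s : S, s ∉ 𝔭 ∧ ∀ c ∈ C, ∃ r : S,
      algebraMap S K s * c = algebraMap S K r * y := by
  obtain ⟨F, hF⟩ := hfg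
  have hF0 : F.Nonempty := by
    rw [Finset.nonempty_iff_ne_empty]
    rintro rfl
    exact hne (by rw [← hF, Finset.coe_empty, Submodule.span_empty])
  obtain ⟨y, hy, s, hs, h⟩ := fin_max (K := K) 𝔭 hh F hF0
  have h2 : ∀ c ∈ C, ∃ r : S, algebraMap S K s * c = algebraMap S K r * y := by
    intro c hc
    rw [← hF] at hc
    induction hc using Submodule.span_induction with
    | mem x hx => exact h x hx
    | zero => exact ⟨0, by rw [mul_zero, map_zero, zero_mul]⟩
    | add a b _ _ ha hb =>
      obtain ⟨r, hr⟩ := ha
      obtain ⟨r', hr'⟩ := hb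
      exact ⟨r + r', by rw [mul_add, hr, hr', map_add, add_mul]⟩
    | smul t a _ ha =>
      obtain ⟨r, hr⟩ := ha
      refine ⟨t * r, ?_⟩
      rw [Algebra.smul_def, map_mul]
      linear_combination (algebraMap S K t) * hr
  refine ⟨y, hF ▸ Submodule.subset_span hy, ?_, s, hs, h2⟩
  rintro rfl
  apply hne
  rw [Submodule.eq_bot_iff]
  intro c hc
  obtain ⟨r, hr⟩ := h2 c hc
  rw [mul_zero] at hr
  have hs0 : algebraMap S K s ≠ 0 := by
    intro h0
    have : s = 0 := (map_eq_zero_iff _ (IsFractionRing.injective S K)).1 h0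
    exact hs (this ▸ 𝔭.zero_mem)
  exact (mul_eq_zero.1 hr).resolve_left hs0

/-- the double dual is the module itself at height one primes -/
theorem loc_refl (C : Submodule S K) (hne : C ≠ ⊥) (hfg : C.FG) (z : K) (hz : z ∈ 1 / (1 / C))
    (𝔭 : Ideal S) [h𝔭 : 𝔭.IsPrime] (hh : 𝔭.height = 1) : ∃ s : S, s ∉ 𝔭 ∧ s • z ∈ C := by
  obtain ⟨y, hy, hy0, s, hs, h⟩ := loc_princ C hne hfg 𝔭 hh
  have h1 : algebraMap S K s * y⁻¹ ∈ 1 / C := by
    rw [Submodule.mem_div_iff_forall_mul_mem]
    intro c hc
    obtain ⟨r, hr⟩ := h c hc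
    rw [Submodule.mem_one]
    refine ⟨r, ?_⟩
    rw [mul_right_comm, hr, mul_assoc, mul_inv_cancel₀ hy0, mul_one]
  rw [Submodule.mem_div_iff_forall_mul_mem] at hz
  have h2 := hz _ h1
  rw [Submodule.mem_one] at h2
  obtain ⟨r, hr⟩ := h2
  refine ⟨s, hs, ?_⟩
  have h3 : s • z = r • y := by
    rw [Algebra.smul_def, Algebra.smul_def, hr]
    field_simp
  rw [h3]
  exact C.smul_mem r hy

end

/-- a prime over a height one prime has height one -/
theorem height_over {P S : Type} [CommRing P] [IsDomain P] [CommRing S] [IsDomain S]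
    [Algebra P S] [Algebra.IsIntegral P S] [FaithfulSMul P S] (𝔮 : Ideal P) [𝔮.IsPrime] (hq : 𝔮.height = 1)
    (𝔭 : Ideal S) [𝔭.IsPrime] (h : 𝔭.comap (algebraMap P S) = 𝔮) : 𝔭.height = 1 := by
  refine le_antisymm ?_ ?_
  · have := (Ideal.height_le_iff (p := 𝔭) (n := 1)).2 ?_
    · exact_mod_cast this
    · intro 𝔭' hp' hlt
      haveI := hp'
      have h1 := Ideal.IsIntegral.comap_lt_comap (R := P) hlt
      rw [h] at h1
      haveI : (𝔭'.comap (algebraMap P S)).IsPrime := Ideal.IsPrime.comap _
      have hfin : 𝔮.FiniteHeight := by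
        rw [Ideal.finiteHeight_iff]
        right
        rw [hq]
        exact ENat.one_ne_top
      have h2 := Ideal.height_strict_mono_of_isPrime_of_isPrime h1
      rw [hq, Order.lt_one_iff, Ideal.height_eq_zero_iff_eq_bot] at h2
      have h3 := Ideal.eq_bot_of_comap_eq_bot h2
      rw [h3]
      have h4 : (⊥ : Ideal S).height = 0 := Ideal.height_eq_zero_iff_eq_bot.2 rfl
      rw [h4]
      exact_mod_cast Nat.zero_lt_one
  · rw [Order.one_le_iff_ne_zero, Ne, Ideal.height_eq_zero_iff_eq_bot]
    rintro rfl
    have h1 : 𝔮 = ⊥ := by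
      rw [← h]
      exact Ideal.comap_bot_of_injective _ (FaithfulSMul.algebraMap_injective P S)
    rw [h1] at hq
    have h4 : (⊥ : Ideal P).height = 0 := Ideal.height_eq_zero_iff_eq_bot.2 rfl
    rw [h4] at hq
    exact zero_ne_one hq

/-- There is a nonzero functional. -/
theorem exists_dual {P S : Type} [CommRing P] [IsDomain P] [IsNoetherianRing P] [CommRing S]
    [IsDomain S] [Algebra P S] [Module.Finite P S] [FaithfulSMul P S] :
    ∃ f : S →ₗ[P] P, f ≠ 0 := by
  haveI : FaithfulSMul P (FractionRing S) := by
    rw [faithfulSMul_iff_algebraMap_injective, IsScalarTower.algebraMap_eq P S (FractionRing S)]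
    exact (IsFractionRing.injective S (FractionRing S)).comp
      (FaithfulSMul.algebraMap_injective P S)
  letI : Algebra (FractionRing P) (FractionRing S) := FractionRing.liftAlgebra P (FractionRing S)
  haveI : IsScalarTower P (FractionRing P) (FractionRing S) :=
    FractionRing.isScalarTower_liftAlgebra P (FractionRing S)
  obtain ⟨l, hl⟩ := Module.Projective.exists_dual_ne_zero (FractionRing P)
    (x := (1 : FractionRing S)) one_ne_zero
  let g : S →ₗ[P] FractionRing P := (l.restrictScalars P).comp
    (IsScalarTower.toAlgHom P S (FractionRing S)).toLinearMap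
  have hg : g 1 ≠ 0 := by
    have : g 1 = l 1 := by
      show l (algebraMap S (FractionRing S) 1) = l 1
      rw [map_one]
    rw [this]
    exact hl
  haveI : Module.FinitePresentation P S := Module.finitePresentation_of_finite P S
  obtain ⟨h, s, hs⟩ := Module.FinitePresentation.exists_lift_of_isLocalizedModule P⁰
    (Algebra.linearMap P (FractionRing P)) g
  refine ⟨h, ?_⟩
  rintro rfl
  have h1 := LinearMap.congr_fun hs 1
  rw [LinearMap.comp_zero, LinearMap.zero_apply] at h1
  have h2 : (s • g) 1 = algebraMap P (FractionRing P) s * g 1 := by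
    rw [← Algebra.smul_def]
    rfl
  rw [h2] at h1
  rcases mul_eq_zero.1 h1.symm with h3 | h3
  · exact IsFractionRing.to_map_ne_zero_of_mem_nonZeroDivisors s.2 h3
  · exact hg h3

theorem crf : Pool.Agent.H867.FT.S_CRF := by
  intro P S K _ _ _ _ _ _ _ _ _ _ _ _ _ C hC
  obtain ⟨e, he⟩ := hC
  haveI hSN : IsNoetherianRing S := IsNoetherianRing.of_finite P S
  have hPS : Function.Injective (algebraMap P S) := FaithfulSMul.algebraMap_injective P S
  have hSK : Function.Injective (algebraMap S K) := IsFractionRing.injective S K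
  -- nonzero
  have hne : C ≠ ⊥ := by
    rintro rfl
    obtain ⟨f, hf⟩ := exists_dual (P := P) (S := S)
    apply hf
    have h1 : e.symm f = 0 := Subsingleton.elim _ _
    rw [← e.apply_symm_apply f, h1, map_zero]
  -- P-linearity
  have heP : ∀ (a : P) (y : C) (s : S), e (algebraMap P S a • y) s = a * e y s := by
    intro a y s
    rw [he, ← Algebra.smul_def, map_smul, smul_eq_mul]
  -- finitely generated
  have hfg : C.FG := by
    have h1 : IsNoetherian P (S →ₗ[P] P) := inferInstance
    obtain ⟨F, hF⟩ := (isNoetherian_def.1 h1) ⊤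
    classical
    refine ⟨F.image fun f => (e.symm f : K), ?_⟩
    apply le_antisymm
    · rw [Submodule.span_le]
      intro c hc
      rw [Finset.mem_coe, Finset.mem_image] at hc
      obtain ⟨f, _, rfl⟩ := hc
      exact (e.symm f).2
    · intro c hc
      have key : ∀ f ∈ Submodule.span P (F : Set (S →ₗ[P] P)), ((e.symm f : C) : K) ∈
          Submodule.span S ((F.image fun f => (e.symm f : K) : Finset K) : Set K) := by
        intro f hf
        induction hf using Submodule.span_induction with
        | mem x hx =>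
          apply Submodule.subset_span
          rw [Finset.mem_coe, Finset.mem_image]
          exact ⟨x, hx, rfl⟩
        | zero =>
          rw [map_zero]
          exact Submodule.zero_mem _
        | add a b _ _ ha hb =>
          rw [map_add]
          exact Submodule.add_mem _ ha hb
        | smul t a _ ha =>
          have h2 : e.symm (t • a) = algebraMap P S t • e.symm a := by
            rw [e.symm_apply_eq]
            ext s
            rw [heP, e.apply_symm_apply, LinearMap.smul_apply, smul_eq_mul]
          rw [h2]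
          exact Submodule.smul_mem _ _ ha
      have h3 := key (e ⟨c, hc⟩) (hF ▸ Submodule.mem_top)
      rw [e.symm_apply_apply] at h3
      exact h3
  refine ⟨hne, hfg, le_antisymm ?_ ?_⟩
  · intro z hz
    -- a denominator in `P`
    obtain ⟨s, hs0, hsz⟩ : ∃ s : P, s ≠ 0 ∧ algebraMap P S s • z ∈ C := by
      obtain ⟨c, hc, hc0⟩ := Submodule.exists_mem_ne_zero_of_ne_bot hne
      obtain ⟨⟨a, b⟩, hab⟩ := IsLocalization.surj S⁰ (z / c)
      have hb0 : (b : S) ≠ 0 := nonZeroDivisors.coe_ne_zero b
      have h1 : (b : S) • z = a • c := by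
        have h2 : z / c * algebraMap S K b = algebraMap S K a := hab
        rw [Algebra.smul_def, Algebra.smul_def, ← h2]
        field_simp
      have h3 : Ideal.comap (algebraMap P S) (Ideal.span {(b : S)}) ≠ ⊥ :=
        Ideal.comap_ne_bot_of_integral_mem hb0 (Ideal.mem_span_singleton_self _)
          (Algebra.IsIntegral.isIntegral _)
      obtain ⟨s, hs, hs0⟩ := Submodule.exists_mem_ne_zero_of_ne_bot h3
      refine ⟨s, hs0, ?_⟩
      rw [Ideal.mem_comap, Ideal.mem_span_singleton] at hs
      obtain ⟨b', hb'⟩ := hs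
      rw [hb', mul_comm, mul_smul, h1]
      exact C.smul_mem _ (C.smul_mem _ hc)
    -- the values are divisible by `s`
    have hdiv : ∀ r : S, ∃ g : P, e ⟨_, hsz⟩ r = s * g := by
      intro r
      let L := FractionRing P
      have hsL : algebraMap P L s ≠ 0 := by
        intro h
        exact hs0 ((map_eq_zero_iff _ (IsFractionRing.injective P L)).1 h)
      obtain ⟨g, hg⟩ := Pool.Agent.H738.FT867KRU.kru P L
        (algebraMap P L (e ⟨_, hsz⟩ r) / algebraMap P L s) (by
        intro 𝔮 hq hht
        -- the conductor of `z`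
        obtain ⟨s', hs', hs'z⟩ : ∃ s' : P, s' ∉ 𝔮 ∧ algebraMap P S s' • z ∈ C := by
          by_contra hno
          push Not at hno
          let I : Ideal S :=
            { carrier := {t | t • z ∈ C}
              add_mem' := by
                intro a b ha hb
                show (a + b) • z ∈ C
                rw [add_smul]
                exact C.add_mem ha hb
              zero_mem' := by
                show (0 : S) • z ∈ C
                rw [zero_smul]
                exact C.zero_mem
              smul_mem' := by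
                intro t a ha
                show (t • a) • z ∈ C
                rw [smul_eq_mul, mul_smul]
                exact C.smul_mem t ha }
          have hI : I.comap (algebraMap P S) ≤ 𝔮 := by
            intro t ht
            by_contra h
            exact hno t h ht
          obtain ⟨𝔭, hIp, hp, hpq⟩ := Ideal.exists_ideal_over_prime_of_isIntegral 𝔮 I hI
          have hph := height_over 𝔮 hht 𝔭 hpq
          obtain ⟨t, ht, htz⟩ := loc_refl C hne hfg z hz 𝔭 hph
          exact ht (hIp htz)
        refine ⟨s', hs', e ⟨_, hs'z⟩ r, ?_⟩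
        have h5 : s * e ⟨_, hs'z⟩ r = s' * e ⟨_, hsz⟩ r := by
          rw [← heP, ← heP]
          congr 2
          apply Subtype.ext
          show algebraMap P S s • algebraMap P S s' • z = algebraMap P S s' • algebraMap P S s • z
          rw [smul_comm]
        have h6 := congrArg (algebraMap P L) h5
        rw [map_mul, map_mul] at h6
        rw [← mul_div_assoc, div_eq_iff hsL]
        linear_combination -h6)
      refine ⟨g, ?_⟩
      apply IsFractionRing.injective P L
      rw [map_mul, ← hg]
      exact (mul_div_cancel₀ _ hsL).symm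
    choose g hg using hdiv
    let G : S →ₗ[P] P :=
      { toFun := g
        map_add' := by
          intro a b
          apply mul_left_cancel₀ hs0
          rw [← hg, mul_add, ← hg, ← hg, map_add]
        map_smul' := by
          intro t a
          apply mul_left_cancel₀ hs0
          rw [← hg, map_smul, hg, RingHom.id_apply, smul_eq_mul, smul_eq_mul]
          ring }
    have h7 : algebraMap P S s • e.symm G = ⟨_, hsz⟩ := by
      apply e.injective
      ext r
      rw [heP, e.apply_symm_apply, hg]
      rfl
    have h8 := congrArg (Subtype.val) h7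
    have h9 : algebraMap P S s • ((e.symm G : C) : K) = algebraMap P S s • z := h8
    have h10 : ((e.symm G : C) : K) = z := by
      rw [Algebra.smul_def, Algebra.smul_def] at h9
      refine mul_left_cancel₀ ?_ h9
      intro h
      rw [map_eq_zero_iff _ hSK, map_eq_zero_iff _ hPS] at h
      exact hs0 h
    rw [← h10]
    exact (e.symm G).2
  · intro z hz
    rw [Submodule.mem_div_iff_forall_mul_mem]
    intro y hy
    rw [Submodule.mem_div_iff_forall_mul_mem] at hy
    have := hy z hz
    rw [mul_comm]
    exact this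

end Pool.Agent.H665.FT867CRF
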