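import Pool.Agent.H691.MM.Cert

set_option autoImplicit false

/-!
TaskC1 of Pool/Agent/H691/MM/Cert.lean: soundness of the crossing test.
-/

namespace Pool.Agent.H665.MM

open Pool.Agent.W982.TA Pool.Agent.H691.Geo Pool.Agent.H691.MM

theorem pcross_of (g : ℤ) (hg : g * g = 1) (p q a b : Pt)
    (hA : 0 < g * cr a (q.1 - p.1, q.2 - p.2)) (hB : 0 < g * cr b (q.1 - p.1, q.2 - p.2))
    (hKA : g * cr a (b.1 + (q.1 - p.1), b.2 + (q.2 - p.2)) < 0)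
    (hKB : g * cr (a.1 - (q.1 - p.1), a.2 - (q.2 - p.2)) b < 0) :
    PCross p (p + a) q (q + b) := by
  obtain ⟨p1, p2⟩ := p
  obtain ⟨q1, q2⟩ := q
  obtain ⟨a1, a2⟩ := a
  obtain ⟨b1, b2⟩ := b
  simp only [cr] at hA hB hKA hKB
  simp only [PCross, dt, Prod.mk_add_mk]
  constructor
  · have h1 := mul_neg_of_pos_of_neg hA hKA
    have h2 : (g * (a1 * (q2 - p2) - a2 * (q1 - p1))) *
        (g * (a1 * (b2 + (q2 - p2)) - a2 * (b1 + (q1 - p1)))) =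
        (g * g) * ((a1 * (q2 - p2) - a2 * (q1 - p1)) *
        (a1 * (b2 + (q2 - p2)) - a2 * (b1 + (q1 - p1)))) := by ring
    rw [h2, hg, one_mul] at h1
    refine lt_of_eq_of_lt ?_ h1
    ring
  · have h1 := mul_neg_of_pos_of_neg hB hKB
    have h2 : (g * (b1 * (q2 - p2) - b2 * (q1 - p1))) *
        (g * ((a1 - (q1 - p1)) * b2 - (a2 - (q2 - p2)) * b1)) =
        (g * g) * ((b1 * (q2 - p2) - b2 * (q1 - p1)) *
        ((a1 - (q1 - p1)) * b2 - (a2 - (q2 - p2)) * b1)) := by ring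
    rw [h2, hg, one_mul] at h1
    refine lt_of_eq_of_lt ?_ h1
    ring

theorem xg_sound (g : ℤ) (hg : g * g = 1) (p q : Pt) (A B : Sector) (a b : Pt)
    (h : xg g (q.1 - p.1, q.2 - p.2) A B = true) (ha : A.Mem a) (hb : B.Mem b) :
    PCross p (p + a) q (q + b) := by
  obtain ⟨s, t, hs, ht, rfl⟩ := ha
  obtain ⟨s', t', hs', ht', rfl⟩ := hb
  obtain ⟨d, hd⟩ : ∃ d : Pt, d = (q.1 - p.1, q.2 - p.2) := ⟨_, rfl⟩
  rw [← hd] at h
  simp only [xg, Bool.and_eq_true, decide_eq_true_eq] at h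
  obtain ⟨⟨⟨⟨⟨⟨⟨⟨⟨⟨⟨⟨⟨⟨⟨⟨⟨⟨⟨h1, h2⟩, h3⟩, h4⟩, h5⟩, h6⟩, h7⟩, h8⟩, h9⟩, h10⟩, h11⟩, h12⟩, h13⟩,
    h14⟩, h15⟩, h16⟩, h17⟩, h18⟩, h19⟩, h20⟩ := h
  have e1 : d.1 = q.1 - p.1 := by rw [hd]
  have e2 : d.2 = q.2 - p.2 := by rw [hd]
  refine pcross_of g hg p q _ _ ?_ ?_ ?_ ?_
  · rw [← hd]
    have i1 := mul_nonneg hs h5
    have i2 := mul_nonneg ht h6
    simp only [cr] at h1 i1 i2 ⊢
    nlinarith
  · rw [← hd]
    have i1 := mul_nonneg hs' h7
    have i2 := mul_nonneg ht' h8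
    simp only [cr] at h2 i1 i2 ⊢
    nlinarith
  · rw [← e1, ← e2]
    have i1 := mul_nonpos_of_nonneg_of_nonpos hs h9
    have i2 := mul_nonpos_of_nonneg_of_nonpos ht h10
    have i3 := mul_nonpos_of_nonneg_of_nonpos hs' h11
    have i4 := mul_nonpos_of_nonneg_of_nonpos ht' h12
    have i5 := mul_nonpos_of_nonneg_of_nonpos (mul_nonneg hs hs') h17
    have i6 := mul_nonpos_of_nonneg_of_nonpos (mul_nonneg hs ht') h18
    have i7 := mul_nonpos_of_nonneg_of_nonpos (mul_nonneg ht hs') h19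
    have i8 := mul_nonpos_of_nonneg_of_nonpos (mul_nonneg ht ht') h20
    simp only [cr] at h3 i1 i2 i3 i4 i5 i6 i7 i8 ⊢
    linarith
  · rw [← e1, ← e2]
    have i1 := mul_nonpos_of_nonneg_of_nonpos hs' h13
    have i2 := mul_nonpos_of_nonneg_of_nonpos ht' h14
    have i3 := mul_nonpos_of_nonneg_of_nonpos hs h15
    have i4 := mul_nonpos_of_nonneg_of_nonpos ht h16
    have i5 := mul_nonpos_of_nonneg_of_nonpos (mul_nonneg hs hs') h17
    have i6 := mul_nonpos_of_nonneg_of_nonpos (mul_nonneg hs ht') h18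
    have i7 := mul_nonpos_of_nonneg_of_nonpos (mul_nonneg ht hs') h19
    have i8 := mul_nonpos_of_nonneg_of_nonpos (mul_nonneg ht ht') h20
    simp only [cr] at h4 i1 i2 i3 i4 i5 i6 i7 i8 ⊢
    linarith

theorem taskC1 : TaskC1 := by
  intro p q A B a b h ha hb
  simp only [xs, Bool.or_eq_true] at h
  rcases h with h | h
  · exact xg_sound 1 (by norm_num) p q A B a b h ha hb
  · exact xg_sound (-1) (by norm_num) p q A B a b h ha hb

end Pool.Agent.H665.MM
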