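import Pool.Agent.H133.ZM.Stm

/-!
# ZM conn1: connectivity of the set of large matchings (one matching of size `L + 1`)
-/

set_option autoImplicit false

namespace Pool.Agent.H665.ZM

open Finset
open Pool.Agent.H133.ZM

section

variable {V : Type} [DecidableEq V] {G : SimpleGraph V}

/-- two edges meet -/
def Mt (e f : Sym2 V) : Prop := ∃ v, v ∈ e ∧ v ∈ f

theorem le_two {M : Finset (Sym2 V)} (hM : IsM G M) (S : Finset (Sym2 V)) (hS : S ⊆ M)
    (f : Sym2 V) (hf : ∀ e ∈ S, Mt e f) : S.card ≤ 2 := by
  classical
  induction f using Sym2.ind with
  | _ u v =>
    have h1 : ∀ w : V, (M.filter (fun e => w ∈ e)).card ≤ 1 := by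
      intro w
      rw [Finset.card_le_one]
      intro a ha b hb
      rw [Finset.mem_filter] at ha hb
      by_contra hab
      exact hM.2 a ha.1 b hb.1 hab w ha.2 hb.2
    have h2 : S ⊆ M.filter (fun e => u ∈ e) ∪ M.filter (fun e => v ∈ e) := by
      intro e he
      obtain ⟨w, hw1, hw2⟩ := hf e he
      rw [Finset.mem_union, Finset.mem_filter, Finset.mem_filter]
      rcases Sym2.mem_iff.1 hw2 with rfl | rfl
      · exact Or.inl ⟨hS he, hw1⟩
      · exact Or.inr ⟨hS he, hw1⟩
    have h3 := Finset.card_le_card h2
    have h4 := Finset.card_union_le (M.filter (fun e => u ∈ e)) (M.filter (fun e => v ∈ e))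
    have h5 := h1 u
    have h6 := h1 v
    omega

theorem isM_erase {M : Finset (Sym2 V)} (hM : IsM G M) (f : Sym2 V) : IsM G (M.erase f) :=
  ⟨fun e he => hM.1 e (Finset.mem_of_mem_erase he), fun e he e' he' =>
    hM.2 e (Finset.mem_of_mem_erase he) e' (Finset.mem_of_mem_erase he')⟩

theorem isM_insert {M : Finset (Sym2 V)} (hM : IsM G M) (e : Sym2 V) (he : e ∈ G.edgeSet)
    (h : ∀ f ∈ M, ¬ Mt e f) : IsM G (insert e M) := by
  constructor
  · intro x hx
    rcases Finset.mem_insert.1 hx with rfl | hx
    · exact he
    · exact hM.1 x hx
  · intro x hx y hy hxy v hv hv'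
    rcases Finset.mem_insert.1 hx with hxe | hxM
    · rcases Finset.mem_insert.1 hy with hye | hyM
      · exact hxy (hxe.trans hye.symm)
      · exact h y hyM ⟨v, hxe ▸ hv, hv'⟩
    · rcases Finset.mem_insert.1 hy with hye | hyM
      · exact h x hxM ⟨v, hye ▸ hv', hv⟩
      · exact hM.2 x hxM y hyM hxy v hv hv'

end

theorem t_conn1 : S_conn1 := by
  classical
  intro V _ _ G L α P H M1 hM1 hL1
  have key : ∀ k : ℕ, ∀ M : Finset (Sym2 V), IsM G M → L ≤ M.card →
      (M \ M1).card + (M1 \ M).card ≤ k → P M = P M1 := by
    intro k
    induction k with
    | zero =>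
      intro M hM hL hk
      have h1 : M \ M1 = ∅ := Finset.card_eq_zero.1 (by omega)
      have h2 : M1 \ M = ∅ := Finset.card_eq_zero.1 (by omega)
      rw [Finset.sdiff_eq_empty_iff_subset] at h1 h2
      rw [Finset.Subset.antisymm h1 h2]
    | succ k ih =>
      intro M hM hL hk
      by_cases hA : ∃ e ∈ M1 \ M, ∀ f ∈ M, ¬ Mt e f
      · -- add an edge
        obtain ⟨e, he, hf⟩ := hA
        rw [Finset.mem_sdiff] at he
        have hM' := isM_insert hM e (hM1.1 e he.1) hf
        have c1 : L ≤ (insert e M).card := by
          rw [Finset.card_insert_of_notMem he.2]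
          omega
        have c2 : M \ insert e M = ∅ := by
          rw [Finset.sdiff_eq_empty_iff_subset]
          exact Finset.subset_insert e M
        have c3 : insert e M \ M ⊆ {e} := by
          intro x hx
          rw [Finset.mem_sdiff, Finset.mem_insert] at hx
          rw [Finset.mem_singleton]
          exact hx.1.resolve_right hx.2
        have c4 := Finset.card_le_card c3
        rw [Finset.card_singleton] at c4
        have h1 := H M (insert e M) hM hM' hL c1 (by rw [c2]; simp) c4
        rw [h1]
        refine ih (insert e M) hM' c1 ?_
        have c5 : insert e M \ M1 ⊆ M \ M1 := by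
          intro x hx
          rw [Finset.mem_sdiff, Finset.mem_insert] at hx
          rw [Finset.mem_sdiff]
          rcases hx.1 with rfl | h
          · exact absurd he.1 hx.2
          · exact ⟨h, hx.2⟩
        have c6 : M1 \ insert e M ⊆ (M1 \ M).erase e := by
          intro x hx
          rw [Finset.mem_sdiff, Finset.mem_insert, not_or] at hx
          rw [Finset.mem_erase, Finset.mem_sdiff]
          exact ⟨hx.2.1, hx.1, hx.2.2⟩
        have c7 := Finset.card_le_card c5
        have c8 := Finset.card_le_card c6
        have c9 := Finset.card_erase_of_mem (Finset.mem_sdiff.2 he)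
        have c10 : 0 < (M1 \ M).card := Finset.card_pos.2 ⟨e, Finset.mem_sdiff.2 he⟩
        omega
      · push Not at hA
        by_cases hB : ∃ e ∈ M1 \ M, ∃ f ∈ M, Mt e f ∧ ∀ f' ∈ M, Mt e f' → f' = f
        · -- exchange an edge
          obtain ⟨e, he, f, hfM, hef, huniq⟩ := hB
          rw [Finset.mem_sdiff] at he
          have hne : e ≠ f := fun h => he.2 (h ▸ hfM)
          have hf1 : f ∉ M1 := by
            intro hf1
            obtain ⟨v, hv1, hv2⟩ := hef
            exact hM1.2 e he.1 f hf1 hne v hv1 hv2
          have hM' := isM_insert (isM_erase hM f) e (hM1.1 e he.1) (by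
            intro f' hf' hmt
            rw [Finset.mem_erase] at hf'
            exact hf'.1 (huniq f' hf'.2 hmt))
          have he' : e ∉ M.erase f := fun h => he.2 (Finset.mem_of_mem_erase h)
          have hMpos : 0 < M.card := Finset.card_pos.2 ⟨f, hfM⟩
          have c1 : (insert e (M.erase f)).card = M.card := by
            rw [Finset.card_insert_of_notMem he', Finset.card_erase_of_mem hfM]
            omega
          have c2 : M \ insert e (M.erase f) ⊆ {f} := by
            intro x hx
            rw [Finset.mem_sdiff, Finset.mem_insert, Finset.mem_erase, not_or, not_and] at hx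
            rw [Finset.mem_singleton]
            by_contra hxf
            exact hx.2.2 hxf hx.1
          have c3 : insert e (M.erase f) \ M ⊆ {e} := by
            intro x hx
            rw [Finset.mem_sdiff, Finset.mem_insert, Finset.mem_erase] at hx
            rw [Finset.mem_singleton]
            rcases hx.1 with h | h
            · exact h
            · exact absurd h.2 hx.2
          have c4 := Finset.card_le_card c2
          have c5 := Finset.card_le_card c3
          rw [Finset.card_singleton] at c4 c5
          have h1 := H M (insert e (M.erase f)) hM hM' hL (by omega) c4 c5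
          rw [h1]
          refine ih _ hM' (by omega) ?_
          have c6 : insert e (M.erase f) \ M1 ⊆ (M \ M1).erase f := by
            intro x hx
            rw [Finset.mem_sdiff, Finset.mem_insert, Finset.mem_erase] at hx
            rw [Finset.mem_erase, Finset.mem_sdiff]
            rcases hx.1 with rfl | h
            · exact absurd he.1 hx.2
            · exact ⟨h.1, h.2, hx.2⟩
          have c7 : M1 \ insert e (M.erase f) ⊆ (M1 \ M).erase e := by
            intro x hx
            rw [Finset.mem_sdiff, Finset.mem_insert, Finset.mem_erase, not_or, not_and] at hx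
            rw [Finset.mem_erase, Finset.mem_sdiff]
            refine ⟨hx.2.1, hx.1, ?_⟩
            apply hx.2.2
            rintro rfl
            exact hf1 hx.1
          have c8 := Finset.card_le_card c6
          have c9 := Finset.card_le_card c7
          have hfm : f ∈ M \ M1 := Finset.mem_sdiff.2 ⟨hfM, hf1⟩
          have c10 := Finset.card_erase_of_mem hfm
          have c11 := Finset.card_erase_of_mem (Finset.mem_sdiff.2 he)
          have c12 : 0 < (M1 \ M).card := Finset.card_pos.2 ⟨e, Finset.mem_sdiff.2 he⟩
          have c13 : 0 < (M \ M1).card := Finset.card_pos.2 ⟨f, hfm⟩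
          omega
        · -- double counting
          push Not at hB
          have hdc : (M1 \ M).card * 2 ≤ (M \ M1).card * 2 := by
            apply Finset.card_mul_le_card_mul (fun e f => Mt e f)
            · intro e he
              obtain ⟨f, hf, hef⟩ := hA e he
              obtain ⟨f', hf', hef', hne⟩ := hB e he f hf hef
              have he2 := Finset.mem_sdiff.1 he
              have hmem : ∀ g ∈ M, Mt e g → g ∈ (M \ M1).bipartiteAbove (fun e f => Mt e f) e := by
                intro g hg heg
                rw [Finset.mem_bipartiteAbove, Finset.mem_sdiff]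
                refine ⟨⟨hg, ?_⟩, heg⟩
                intro hg1
                obtain ⟨v, hv1, hv2⟩ := heg
                have hne' : e ≠ g := fun h => he2.2 (h ▸ hg)
                exact hM1.2 e he2.1 g hg1 hne' v hv1 hv2
              have h1 := Finset.one_lt_card.2 ⟨f, hmem f hf hef, f', hmem f' hf' hef', Ne.symm hne⟩
              exact h1
            · intro f hf
              refine le_two hM1 _ ?_ f ?_
              · intro e he
                exact (Finset.mem_sdiff.1 ((Finset.mem_bipartiteBelow _).1 he).1).1
              · intro e he
                exact ((Finset.mem_bipartiteBelow _).1 he).2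
          by_cases hemp : M \ M1 = ∅
          · have h1 : (M1 \ M).card = 0 := by
              rw [hemp, Finset.card_empty] at hdc
              omega
            have h2 : M1 \ M = ∅ := Finset.card_eq_zero.1 h1
            rw [Finset.sdiff_eq_empty_iff_subset] at hemp h2
            rw [Finset.Subset.antisymm hemp h2]
          · obtain ⟨f, hf⟩ := Finset.nonempty_iff_ne_empty.2 hemp
            have hf2 := Finset.mem_sdiff.1 hf
            have d1 := Finset.card_sdiff_add_card_inter M M1
            have d2 := Finset.card_sdiff_add_card_inter M1 M
            rw [Finset.inter_comm M1 M] at d2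
            have hM' := isM_erase hM f
            have c1 := Finset.card_erase_of_mem hf2.1
            have c2 : M \ M.erase f ⊆ {f} := by
              intro x hx
              rw [Finset.mem_sdiff, Finset.mem_erase, not_and] at hx
              rw [Finset.mem_singleton]
              by_contra hxf
              exact hx.2 hxf hx.1
            have c3 : M.erase f \ M = ∅ := by
              rw [Finset.sdiff_eq_empty_iff_subset]
              exact Finset.erase_subset f M
            have c4 := Finset.card_le_card c2
            rw [Finset.card_singleton] at c4
            have h1 := H M (M.erase f) hM hM' hL (by omega) c4 (by rw [c3]; simp)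
            rw [h1]
            refine ih _ hM' (by omega) ?_
            have c6 : M.erase f \ M1 ⊆ (M \ M1).erase f := by
              intro x hx
              rw [Finset.mem_sdiff, Finset.mem_erase] at hx
              rw [Finset.mem_erase, Finset.mem_sdiff]
              exact ⟨hx.1.1, hx.1.2, hx.2⟩
            have c7 : M1 \ M.erase f ⊆ M1 \ M := by
              intro x hx
              rw [Finset.mem_sdiff, Finset.mem_erase, not_and] at hx
              rw [Finset.mem_sdiff]
              refine ⟨hx.1, hx.2 ?_⟩
              rintro rfl
              exact hf2.2 hx.1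
            have c8 := Finset.card_le_card c6
            have c9 := Finset.card_le_card c7
            have c10 := Finset.card_erase_of_mem hf
            have c13 : 0 < (M \ M1).card := Finset.card_pos.2 ⟨f, hf⟩
            omega
  intro M hM hL
  exact key _ M hM hL le_rfl

end Pool.Agent.H665.ZM
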